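import Pool.Agent.H70.NE.BDN

/-!
# BDD: bad coordinates are rare, deterministic machines
-/

set_option autoImplicit false

namespace Pool.Agent.H70.NE

open Finset Filter Pool.Agent.H6.NB Pool.Agent.H70.OQ Pool.Agent.H70.NC

theorem pf_bdd (h1 : T_BDG) (h2 : T_TLB) (h3 : T_HRD) (h4 : Pool.Agent.H6.NB.T_FIS) (h5 : T_WAV) :
    T_BDD := by
  intro l key dep F hl hinj hk1 hdep hF k n A M η δ E h P O hη0 hη hδ hO hn hn4 hT
  classical
  obtain ⟨Wb, hWb1, hWb2⟩ := h4.1 A
  obtain ⟨ε, hε⟩ : ∃ ε : ℝ, ε = Real.exp (2 ^ n * (-δ ^ 2 + M.time n * pw (l n) /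
      2 ^ (l n / 2 - 2))) := ⟨_, rfl⟩
  have hε0 : 0 ≤ ε := by
    rw [hε]
    positivity
  have key1 : ∀ a : List Bool, ∑ c, cw k n (l n) η c *
      ic ((1 / 2 + (η + δ)) * 2 ^ n < (num l M (O c) a n : ℝ)) ≤
      2 ^ nrel key dep (M.time n) (l n) * (bd0 k n (l n) (M.time n) (2 ^ n) + ε) := by
    intro a
    have h6 := h1 l key dep F hl hinj hk1 hdep hF k n M η E h P O hη0 hη hO hn hT
      (Fin n → Bool) (fun _ => a) (fun i => i) ε
      (fun b β => (1 / 2 + η + δ) * 2 ^ n < ((cnt fun m : Fin n → Bool => b m = β m : ℕ) : ℝ))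
      hε0 (by
        intro lv Tr hlv hTr
        have h8 : 3 * 2 ^ (l n / 2 - 2) ≤ 2 ^ (l n / 2) := by
          have e1 : l n / 2 = (l n / 2 - 2) + 2 := by omega
          have e2 : 2 ^ (l n / 2) = 2 ^ (l n / 2 - 2) * 4 := by
            conv_lhs => rw [e1]
            rw [pow_add]
            norm_num
          omega
        have h7 := h2 (Fin n → Bool) (Fin (l n) → Bool) (M.time n * pw (l n))
          (2 ^ (l n / 2)) (2 ^ (l n / 2 - 2)) η δ lv Tr hη0 hη hδ Nat.one_le_two_pow h8 hlv hTr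
        have e2 : (Fintype.card (Fin n → Bool) : ℝ) = 2 ^ n := by
          rw [Fintype.card_fun, Fintype.card_bool, Fintype.card_fin]
          push_cast
          rfl
        rw [e2] at h7
        rw [hε]
        push_cast at h7 ⊢
        exact h7)
      (fun c => (1 / 2 + (η + δ)) * 2 ^ n < (num l M (O c) a n : ℝ)) (by
        intro c b hb hW
        have e1 : (cnt fun m : Fin n → Bool => b m = c.2.2 m) = num l M (O c) a n := by
          unfold cnt num
          refine congrArg Finset.card ?_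
          ext x
          simp only [mem_filter, mem_univ, true_and]
          have a2 := h3 l key F hl hk1 E _ (O c) (hO c) ⟨(k, n), h⟩ x
          rw [Function.update_self] at a2
          have a3 : List.ofFn x ∈ hard l k (O c) ↔ c.2.2 x = true := a2
          have a4 : b x = true ↔ M.acc (O c) a (List.ofFn x) := hb x
          rw [a3, ← a4]
          rcases b x with _ | _ <;> rcases c.2.2 x with _ | _ <;> simp
        show (1 / 2 + η + δ) * 2 ^ n < ((cnt fun m : Fin n → Bool => b m = c.2.2 m : ℕ) : ℝ)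
        rw [e1]
        have e3 : (1 / 2 + η + δ) * 2 ^ n = (1 / 2 + (η + δ)) * 2 ^ n := by ring
        rw [e3]
        exact hW)
    have h8 : ((Fintype.card (Fin n → Bool) : ℕ) : ℝ) = 2 ^ n := by
      rw [Fintype.card_fun, Fintype.card_bool, Fintype.card_fin]
      push_cast
      rfl
    rw [h8] at h6
    exact h6
  have hX0 : 0 ≤ 2 ^ nrel key dep (M.time n) (l n) *
        (bd0 k n (l n) (M.time n) (2 ^ n) + ε) := by
    have := bd0_nonneg k n (l n) (M.time n) (I := 2 ^ n) (by positivity)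
    positivity
  have hic : ∀ c, ic (Bad l M A n (η + δ) (O c)) ≤ ∑ a ∈ Wb.toFinset,
      ic ((1 / 2 + (η + δ)) * 2 ^ n < (num l M (O c) a n : ℝ)) := by
    intro c
    by_cases hc : Bad l M A n (η + δ) (O c)
    · obtain ⟨a, ha, hac⟩ := id hc
      rw [Pool.Agent.H79.OQ.TBI.ic_true hc]
      have e1 : ic ((1 / 2 + (η + δ)) * 2 ^ n < (num l M (O c) a n : ℝ)) = 1 :=
        Pool.Agent.H79.OQ.TBI.ic_true hac
      refine e1.symm.le.trans ?_
      exact single_le_sum (f := fun a => ic ((1 / 2 + (η + δ)) * 2 ^ n <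
        (num l M (O c) a n : ℝ))) (fun _ _ => Pool.Agent.H79.OQ.TB1.ic_nonneg _)
        (List.mem_toFinset.2 (hWb2 a ha))
    · have e1 : ic (Bad l M A n (η + δ) (O c)) = 0 := by
        unfold ic
        rw [if_neg hc]
      rw [e1]
      exact sum_nonneg fun _ _ => Pool.Agent.H79.OQ.TB1.ic_nonneg _
  calc ∑ c, cw k n (l n) η c * ic (Bad l M A n (η + δ) (O c))
      ≤ ∑ c, cw k n (l n) η c * ∑ a ∈ Wb.toFinset,
          ic ((1 / 2 + (η + δ)) * 2 ^ n < (num l M (O c) a n : ℝ)) :=
        sum_le_sum fun c _ => mul_le_mul_of_nonneg_left (hic c)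
          (cw_nonneg h5 k n (l n) η hη0 hη c)
    _ = ∑ a ∈ Wb.toFinset, ∑ c, cw k n (l n) η c *
          ic ((1 / 2 + (η + δ)) * 2 ^ n < (num l M (O c) a n : ℝ)) := by
        simp_rw [mul_sum]
        rw [sum_comm]
    _ ≤ ∑ a ∈ Wb.toFinset, (2 ^ nrel key dep (M.time n) (l n) *
        (bd0 k n (l n) (M.time n) (2 ^ n) + ε)) :=
        sum_le_sum fun a _ => key1 a
    _ = Wb.toFinset.card * (2 ^ nrel key dep (M.time n) (l n) *
        (bd0 k n (l n) (M.time n) (2 ^ n) + ε)) := by
        rw [sum_const, nsmul_eq_mul]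
    _ ≤ 2 ^ (A + 1) * (2 ^ nrel key dep (M.time n) (l n) *
        (bd0 k n (l n) (M.time n) (2 ^ n) + ε)) := by
        refine mul_le_mul_of_nonneg_right ?_ hX0
        have : Wb.toFinset.card ≤ 2 ^ (A + 1) := (List.toFinset_card_le _).trans hWb1
        exact_mod_cast this
    _ = bndD k n (l n) (M.time n) (A + nrel key dep (M.time n) (l n)) δ := by
        unfold bndD
        rw [hε]
        have e4 : A + nrel key dep (M.time n) (l n) + 1 = A + 1 + nrel key dep (M.time n) (l n) := by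
          ring
        rw [e4, pow_add 2 (A + 1)]
        ring

end Pool.Agent.H70.NE
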