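import Pool.Agent.H70.NE.BDN
import Pool.Agent.H70.NC.BDM
import Pool.Agent.H33.NC.FEX

/-!
# BDG: bad coordinates are rare
-/

set_option autoImplicit false

namespace Pool.Agent.H70.NE

open Finset Filter Pool.Agent.H6.NB Pool.Agent.H70.OQ Pool.Agent.H70.NC Pool.Agent.H70.NC.BDM

/-- The strings outside the keys which are short do not depend on the coordinate. -/
theorem sg_short (h5 : T_SGV) (h6 : T_NSQ) (l : ℕ → ℕ) (hl : StrictMono l) (E : Finset (ℕ × ℕ))
    (k n : ℕ) (h : (k, n) ∈ E) (P : ∀ p : {a // a ∈ E}, Ct p.1.1 p.1.2 (l p.1.2))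
    (c c' : Ct k n (l n)) (w : List Bool) (hw : w.length ≤ l n) :
    sg l E (Function.update P ⟨(k, n), h⟩ c) w = sg l E (Function.update P ⟨(k, n), h⟩ c') w := by
  have hsg := h5 l hl E
  rcases hsg.2 w with ⟨p, v, hv⟩ | h3
  · by_cases hp : p = ⟨(k, n), h⟩
    · exfalso
      subst hp
      have h7 := (h6 n (l n) k).1 v
      have h8 : w.length = 1 + (k + 1) + (nsq n (l n) k v).length := by
        rw [hv]
        unfold tst
        simp only [List.length_cons, List.length_append, List.length_replicate]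
        omega
      rw [h7] at h8
      have h9 : 1 * l n ≤ (2 ^ (k + 1) - 1) * l n := by
        refine Nat.mul_le_mul_right _ ?_
        have : 2 ^ 1 ≤ 2 ^ (k + 1) := Nat.pow_le_pow_right (by norm_num) (by omega)
        omega
      omega
    · rw [hv, hsg.1, hsg.1, Function.update_of_ne hp, Function.update_of_ne hp]
  · rw [h3, h3]

theorem pf_bdg (h1 : T_BLG) (h2 : T_MAF) (h3 : T_LOM) (h5 : T_SGV) (h6 : T_NSQ)
    (h7 : Pool.Agent.H6.NB.T_FIS) (h8 : T_KEY) (h9 : T_WAV) : T_BDG := by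
  intro l key dep F hl hinj hk1 hdep hF k n M η E h P O hη0 hη hO hn hT I _ ad xs ε Bd hε hTr W hW
  classical
  -- the keys
  obtain ⟨Ws, -, hWs⟩ := h7.1 (M.time n)
  have hfin : {i | (key i).length ≤ M.time n}.Finite := by
    refine Set.Finite.subset (Set.Finite.preimage hinj.injOn (Ws.toFinset.finite_toSet)) ?_
    intro i hi
    simp only [Set.mem_preimage, List.coe_toFinset, Set.mem_ofPred_eq]
    exact hWs _ hi
  obtain ⟨K, hKdef⟩ : ∃ K : Finset ℕ, K = hfin.toFinset := ⟨_, rfl⟩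
  have hKiff : ∀ i, i ∈ K ↔ (key i).length ≤ M.time n := by
    intro i
    rw [hKdef, Set.Finite.mem_toFinset]
    exact Iff.rfl
  have hKmem : ∀ i, (key i).length ≤ M.time n → i ∈ K := fun i hi => (hKiff i).2 hi
  obtain ⟨K', hK'def⟩ : ∃ K' : Finset ℕ, K' = K.filter fun i => l n < dep i := ⟨_, rfl⟩
  have hK'card : nrel key dep (M.time n) (l n) = K'.card := by
    unfold nrel
    have e1 : {i | (key i).length ≤ M.time n ∧ l n < dep i} = (K' : Set ℕ) := by
      ext i
      rw [hK'def]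
      simp only [Set.mem_ofPred_eq, coe_filter, hKiff]
    rw [e1, Set.ncard_coe_finset]
  -- a reference coordinate
  obtain ⟨c₀⟩ := Pool.Agent.H33.NC.ct_ne k n (l n)
  have hfix : ∀ c i, dep i ≤ l n → O c (key i) = O c₀ (key i) := by
    intro c i hi
    have h10 := h8 key dep F hdep hF _ _ (O c) (O c₀) (l n) (hO c) (hO c₀)
      (fun w hw => sg_short h5 h6 l hl E k n h P c c₀ w hw)
    have h11 := h10.2 i hi
    rw [Bool.eq_iff_iff, (hO c).1 i, (hO c₀).1 i]
    exact h11
  obtain ⟨V, hV⟩ : ∃ V : Finset ({i // i ∈ K} → Bool),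
      V = univ.filter fun e => ∀ i : {i // i ∈ K}, dep i.1 ≤ l n → e i = O c₀ (key i.1) := ⟨_, rfl⟩
  have hVcard : V.card ≤ 2 ^ K'.card := by
    have h10 : Fintype.card ({i // i ∈ K'} → Bool) = 2 ^ K'.card := by
      rw [Fintype.card_fun, Fintype.card_bool, Fintype.card_coe]
    rw [← h10, ← card_univ]
    have hsub0 : ∀ i, i ∈ K' → i ∈ K := by
      intro i hi
      rw [hK'def, mem_filter] at hi
      exact hi.1
    have hsub : ∀ i : {i // i ∈ K'}, i.1 ∈ K := fun i => hsub0 i.1 i.2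
    refine card_le_card_of_injOn (fun e => fun i : {i // i ∈ K'} => e ⟨i.1, hsub i⟩)
      (fun _ _ => by simp) ?_
    intro e he e' he' hee
    rw [mem_coe, hV, mem_filter] at he he'
    funext i
    by_cases hi : dep i.1 ≤ l n
    · rw [he.2 i hi, he'.2 i hi]
    · have hiK : i.1 ∈ K' := by
        rw [hK'def, mem_filter]
        exact ⟨i.2, not_le.1 hi⟩
      exact congrFun hee ⟨i.1, hiK⟩
  have hVmem : ∀ c, (fun i : {i // i ∈ K} => O c (key i.1)) ∈ V := by
    intro c
    rw [hV, mem_filter]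
    exact ⟨mem_univ _, fun i hi => hfix c i.1 hi⟩
  -- the formulas
  have hf : ∀ (e : {i // i ∈ K} → Bool) (i : I),
      ∃ f : (Nq n (l n) k → Bool) → Bool,
        OF (2 ^ (M.time n + 1)) (2 ^ (M.time n + 1)) (M.time n) k (M.time n) f ∧
        ∀ y, (f y = true ↔ M.acc (Oz l key k n E P K e y) (ad i) (List.ofFn (xs i))) := by
    intro e i
    have := h2 (Nq n (l n) k) k M (Oz l key k n E P K e) (ad i) (List.ofFn (xs i))
      (oz_lit l key k n E P K e)
    rw [List.length_ofFn] at this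
    exact this
  choose f hf1 hf2 using hf
  -- the bound for one table
  have hnode : ∀ i < k, 2 ^ (l n - n) * Fintype.card (Node (Rw n (l n)) (Yq (l n)) i) ≤
      Fintype.card (Yq (l n) i) := by
    intro i _
    have e1 : Fintype.card (Node (Rw n (l n)) (Yq (l n)) i) = 2 ^ (n + (2 ^ (i + 1) - 1) * l n) :=
      (h6 n (l n) i).2.2
    rw [e1, ← pow_add, Fintype.card_fun, Fintype.card_bool, Fintype.card_fin]
    refine Nat.pow_le_pow_right (by norm_num) ?_
    have e2 : l n - n + (n + (2 ^ (i + 1) - 1) * l n) = l n + (2 ^ (i + 1) - 1) * l n := by omega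
    rw [e2]
    have e3 : 1 ≤ 2 ^ (i + 1) := Nat.one_le_two_pow
    calc l n + (2 ^ (i + 1) - 1) * l n = (1 + (2 ^ (i + 1) - 1)) * l n := by ring
      _ = 2 ^ (i + 1) * l n := by rw [Nat.add_sub_cancel' e3]
      _ ≤ 2 ^ (i + 1) * l n := le_rfl
  have hpw : 1 ≤ pw (l n) := Nat.one_le_two_pow
  have hpw0 : (0 : ℝ) < pw (l n) := by exact_mod_cast hpw
  have hq0 : 0 < pq (l n) := by
    unfold pq
    positivity
  have hq1 : 64 * (pw (l n) : ℝ) * pq (l n) ≤ 1 := by
    unfold pq
    rw [mul_one_div_cancel (by positivity)]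
  have hR : 2 ^ (l n / 2) * 2 ^ (l n / 2) ≤ Fintype.card (Fin (l n) → Bool) := by
    rw [← pow_add, Fintype.card_fun, Fintype.card_bool, Fintype.card_fin]
    exact Nat.pow_le_pow_right (by norm_num) (by omega)
  obtain ⟨hw0, hw1, -, -⟩ := h9 (Fin n → Bool) η hη0 hη
  have hblk : ∀ e : {i // i ∈ K} → Bool, ∑ c : Ct k n (l n), cw k n (l n) η c *
      ic (Bd (fun i => f e i (sv (glu c.2.1 c.2.2) k c.1)) c.2.2) ≤
      bd0 k n (l n) (M.time n) (Fintype.card I) + ε := by
    intro e
    have h10 := h1 (Fin n → Bool) (Fin (l n) → Bool) I (Yq (l n)) k (2 ^ (M.time n + 1))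
      (2 ^ (M.time n + 1)) (M.time n) (M.time n) (pw (l n)) (2 ^ (l n - n)) (2 ^ (l n / 2))
      (2 ^ (l n / 2)) (pq (l n)) ε hpw hT hq0 hq1 Nat.one_le_two_pow hε Nat.one_le_two_pow hR hnode
      (wa η) hw0 hw1 Bd hTr (f e) (hf1 e)
    have hcH : (0 : ℝ) < Fintype.card (Hid (Rw n (l n)) (Yq (l n)) k) := by
      have : Nonempty (Hid (Rw n (l n)) (Yq (l n)) k) := ⟨c₀.1⟩
      exact_mod_cast Fintype.card_pos
    have hcR : (0 : ℝ) < Fintype.card ((Fin n → Bool) → (Fin (l n) → Bool)) := by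
      exact_mod_cast Fintype.card_pos
    have e1 : ∑ c : Ct k n (l n), cw k n (l n) η c *
        ic (Bd (fun i => f e i (sv (glu c.2.1 c.2.2) k c.1)) c.2.2) =
        (∑ H : Hid (Rw n (l n)) (Yq (l n)) k, ∑ g : (Fin n → Bool) → (Fin (l n) → Bool),
          ∑ β : (Fin n → Bool) → Bool, wa η β * ic (Bd (fun i => f e i (sv (glu g β) k H)) β)) /
        (Fintype.card (Hid (Rw n (l n)) (Yq (l n)) k) *
          Fintype.card ((Fin n → Bool) → (Fin (l n) → Bool))) := by
      rw [sum_div]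
      have e2 : ∑ c : Ct k n (l n), cw k n (l n) η c *
        ic (Bd (fun i => f e i (sv (glu c.2.1 c.2.2) k c.1)) c.2.2) =
        ∑ c : Hid (Rw n (l n)) (Yq (l n)) k × ((Fin n → Bool) → (Fin (l n) → Bool)) ×
          ((Fin n → Bool) → Bool), cw k n (l n) η c *
        ic (Bd (fun i => f e i (sv (glu c.2.1 c.2.2) k c.1)) c.2.2) := rfl
      rw [e2, Fintype.sum_prod_type]
      refine sum_congr rfl fun H _ => ?_
      rw [Fintype.sum_prod_type, sum_div]
      refine sum_congr rfl fun g _ => ?_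
      rw [sum_div]
      refine sum_congr rfl fun β _ => ?_
      unfold cw
      simp only
      ring
    rw [e1, div_le_iff₀ (mul_pos hcH hcR)]
    refine h10.trans (le_of_eq ?_)
    unfold bd0
    rw [Fintype.card_fun (α := Fin n)]
    simp only [Fintype.card_bool, Fintype.card_fin]
    push_cast
    ring
  have hcw : ∀ c : Ct k n (l n), 0 ≤ cw k n (l n) η c := fun c => cw_nonneg h9 k n (l n) η hη0 hη c
  -- bad coordinates
  have hic : ∀ c : Ct k n (l n), ic (W c) ≤
      ∑ e ∈ V, ic (Bd (fun i => f e i (sv (glu c.2.1 c.2.2) k c.1)) c.2.2) := by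
    intro c
    by_cases hc : W c
    · rw [Pool.Agent.H79.OQ.TBI.ic_true hc]
      have hB : Bd (fun i => f (fun i => O c (key i.1)) i (sv (glu c.2.1 c.2.2) k c.1)) c.2.2 := by
        refine hW c _ ?_ hc
        intro i
        have a4 : tbq c = sv (glu c.2.1 c.2.2) k c.1 := rfl
        rw [← a4, hf2]
        refine (h3 k M _ _ (ad i) (List.ofFn (xs i)) fun w hw => ?_).symm
        rw [List.length_ofFn] at hw
        exact oz_eq h5 l key F hl k n (M.time n) E h P K hKmem c (O c) (hO c) w hw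
      have e1 := Pool.Agent.H79.OQ.TBI.ic_true hB
      refine e1.symm.le.trans ?_
      exact single_le_sum (f := fun e : {i // i ∈ K} → Bool =>
        ic (Bd (fun i => f e i (sv (glu c.2.1 c.2.2) k c.1)) c.2.2))
        (fun _ _ => Pool.Agent.H79.OQ.TB1.ic_nonneg _) (hVmem c)
    · have e1 : ic (W c) = 0 := by
        unfold ic
        rw [if_neg hc]
      rw [e1]
      exact sum_nonneg fun _ _ => Pool.Agent.H79.OQ.TB1.ic_nonneg _
  have hX0 : 0 ≤ bd0 k n (l n) (M.time n) (Fintype.card I) + ε := by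
    have := bd0_nonneg k n (l n) (M.time n) (I := Fintype.card I) (by positivity)
    linarith
  calc ∑ c, cw k n (l n) η c * ic (W c)
      ≤ ∑ c, cw k n (l n) η c * ∑ e ∈ V,
          ic (Bd (fun i => f e i (sv (glu c.2.1 c.2.2) k c.1)) c.2.2) :=
        sum_le_sum fun c _ => mul_le_mul_of_nonneg_left (hic c) (hcw c)
    _ = ∑ e ∈ V, ∑ c, cw k n (l n) η c *
          ic (Bd (fun i => f e i (sv (glu c.2.1 c.2.2) k c.1)) c.2.2) := by
        simp_rw [mul_sum]
        rw [sum_comm]
    _ ≤ ∑ e ∈ V, (bd0 k n (l n) (M.time n) (Fintype.card I) + ε) :=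
        sum_le_sum fun e _ => hblk e
    _ = V.card * (bd0 k n (l n) (M.time n) (Fintype.card I) + ε) := by
        rw [sum_const, nsmul_eq_mul]
    _ ≤ 2 ^ nrel key dep (M.time n) (l n) * (bd0 k n (l n) (M.time n) (Fintype.card I) + ε) := by
        refine mul_le_mul_of_nonneg_right ?_ hX0
        rw [hK'card]
        exact_mod_cast hVcard

end Pool.Agent.H70.NE
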