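import Pool.Agent.H70.NE.Targets
import Pool.Agent.H79.OQ.TBI

/-!
# BDN: bad coordinates are rare, nondeterministic machines
-/

set_option autoImplicit false

namespace Pool.Agent.H70.NE

open Finset Filter Pool.Agent.H6.NB Pool.Agent.H70.OQ Pool.Agent.H70.NC

theorem pq_pos (l : ℕ) : 0 < pq l := by
  unfold pq pw
  positivity

theorem pq_le_one (l : ℕ) : pq l ≤ 1 := by
  unfold pq
  have : (1 : ℝ) ≤ pw l := by
    unfold pw
    exact_mod_cast Nat.one_le_two_pow
  rw [div_le_one (by positivity)]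
  linarith

theorem errD_nonneg (n l S w G k : ℕ) : 0 ≤ errD (Rw n l) (Yq l) S w G (pq l) k := by
  cases k with
  | zero => exact le_rfl
  | succ k => exact Pool.Agent.H79.OQ.TBI.errT_nonneg _ _ _ _ _ (pq_pos l).le (pq_le_one l) k

theorem bd0_mono (k n l T : ℕ) {I I' : ℝ} (h : I ≤ I') : bd0 k n l T I ≤ bd0 k n l T I' := by
  unfold bd0
  have h1 := errD_nonneg n l (2 ^ (T + 1)) (pw l) (2 ^ (l - n)) k
  have h2 : 0 ≤ 2 ^ (T + 1) * errD (Rw n l) (Yq l) (2 ^ (T + 1)) (pw l) (2 ^ (l - n)) (pq l) k := by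
    positivity
  have h3 := mul_le_mul_of_nonneg_right h h2
  linarith

theorem bd0_nonneg (k n l T : ℕ) {I : ℝ} (h : 0 ≤ I) : 0 ≤ bd0 k n l T I := by
  unfold bd0
  have h1 := errD_nonneg n l (2 ^ (T + 1)) (pw l) (2 ^ (l - n)) k
  have h2 : 0 ≤ 1 - pq l := by linarith [pq_le_one l]
  positivity

theorem cw_nonneg (h5 : T_WAV) (k n l : ℕ) (η : ℝ) (h0 : 0 ≤ η) (h1 : η ≤ 1 / 4) (c : Ct k n l) :
    0 ≤ cw k n l η c := by
  unfold cw
  have := (h5 (Fin n → Bool) η h0 h1).1 c.2.2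
  positivity

theorem pf_bdn (h1 : T_BDG) (h2 : T_NTL) (h3 : T_HRD) (h4 : Pool.Agent.H6.NB.T_FIS) (h5 : T_WAV) :
    T_BDN := by
  intro l key dep F hl hinj hk1 hdep hF k n B M η γ E h P O hη0 hη hγ0 hγ hO hn hT
  classical
  obtain ⟨Wt, hWt1, hWt2⟩ := h4.1 (M.time n)
  obtain ⟨Wb, hWb1, hWb2⟩ := h4.1 B
  obtain ⟨S, hS⟩ : ∃ S : Finset (List Bool),
      S = Wt.toFinset.filter fun u => u.length ≤ M.time n := ⟨_, rfl⟩
  have hSm : ∀ u : List Bool, u ∈ S ↔ u.length ≤ M.time n := by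
    intro u
    rw [hS, mem_filter, List.mem_toFinset]
    exact ⟨fun hu => hu.2, fun hu => ⟨hWt2 u hu, hu⟩⟩
  have hScard : S.card ≤ 2 ^ (M.time n + 1) := by
    rw [hS]
    exact (card_filter_le _ _).trans ((List.toFinset_card_le _).trans hWt1)
  obtain ⟨ε, hε⟩ : ∃ ε : ℝ, ε = 2 / (η * γ ^ 2 * 2 ^ n) +
      6 / γ ^ 2 * (M.time n * pw (l n) / 2 ^ (l n / 2)) := ⟨_, rfl⟩
  have hε0 : 0 ≤ ε := by
    rw [hε]
    positivity
  have key1 : ∀ a : List Bool, ∑ c, cw k n (l n) η c *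
      ic ((1 / 2 + (η + γ)) * 2 ^ n < (conum l M (O c) a n : ℝ)) ≤
      2 ^ nrel key dep (M.time n) (l n) *
        (bd0 k n (l n) (M.time n) (2 ^ n * 2 ^ (M.time n + 1)) + ε) := by
    intro a
    have h6 := h1 l key dep F hl hinj hk1 hdep hF k n M η E h P O hη0.le hη hO hn hT
      ((Fin n → Bool) × {u // u ∈ S}) (fun i => pair a i.2.1) (fun i => i.1) ε
      (fun b β => (1 / 2 + η + γ) * 2 ^ n <
        ((cnt fun m : Fin n → Bool => (∃ u : {u // u ∈ S}, b (m, u) = true) ↔ ¬ β m = true : ℕ) : ℝ))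
      hε0 (by
        intro lv Tr hlv hTr
        have h7 := h2 (Fin n → Bool) (Fin (l n) → Bool) {u // u ∈ S} (M.time n * pw (l n))
          (2 ^ (l n / 2)) η γ lv (fun m u => Tr (m, u)) hη0 hη hγ0 hγ Nat.one_le_two_pow hlv
          (fun m u => hTr (m, u))
        have e2 : (Fintype.card (Fin n → Bool) : ℝ) = 2 ^ n := by
          rw [Fintype.card_fun, Fintype.card_bool, Fintype.card_fin]
          push_cast
          rfl
        rw [e2] at h7
        rw [hε]
        push_cast at h7 ⊢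
        exact h7)
      (fun c => (1 / 2 + (η + γ)) * 2 ^ n < (conum l M (O c) a n : ℝ)) (by
        intro c b hb hW
        have e1 : (cnt fun m : Fin n → Bool => (∃ u : {u // u ∈ S}, b (m, u) = true) ↔
            ¬ c.2.2 m = true) = conum l M (O c) a n := by
          unfold cnt conum
          refine congrArg Finset.card ?_
          ext x
          simp only [mem_filter, mem_univ, true_and]
          have a2 := h3 l key F hl hk1 E _ (O c) (hO c) ⟨(k, n), h⟩ x
          rw [Function.update_self] at a2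
          have a3 : List.ofFn x ∈ hard l k (O c) ↔ c.2.2 x = true := a2
          have a4 : nacc M (O c) a (List.ofFn x) ↔ ∃ u : {u // u ∈ S}, b (x, u) = true := by
            unfold nacc
            rw [List.length_ofFn]
            constructor
            · rintro ⟨u, hu, hacc⟩
              exact ⟨⟨u, (hSm u).2 hu⟩, (hb (x, ⟨u, (hSm u).2 hu⟩)).2 hacc⟩
            · rintro ⟨u, hu⟩
              exact ⟨u.1, (hSm u.1).1 u.2, (hb (x, u)).1 hu⟩
          rw [a3, a4]
        show (1 / 2 + η + γ) * 2 ^ n < ((cnt fun m : Fin n → Bool =>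
          (∃ u : {u // u ∈ S}, b (m, u) = true) ↔ ¬ c.2.2 m = true : ℕ) : ℝ)
        rw [e1]
        have e3 : (1 / 2 + η + γ) * 2 ^ n = (1 / 2 + (η + γ)) * 2 ^ n := by ring
        rw [e3]
        exact hW)
    refine h6.trans (mul_le_mul_of_nonneg_left ?_ (by positivity))
    have h8 : ((Fintype.card ((Fin n → Bool) × {u // u ∈ S}) : ℕ) : ℝ) ≤
        2 ^ n * 2 ^ (M.time n + 1) := by
      have h9 : Fintype.card ((Fin n → Bool) × {u // u ∈ S}) ≤ 2 ^ n * 2 ^ (M.time n + 1) := by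
        rw [Fintype.card_prod, Fintype.card_fun, Fintype.card_bool, Fintype.card_fin,
          Fintype.card_coe]
        exact Nat.mul_le_mul_left _ hScard
      exact_mod_cast h9
    have := bd0_mono k n (l n) (M.time n) h8
    linarith
  have hX0 : 0 ≤ 2 ^ nrel key dep (M.time n) (l n) *
        (bd0 k n (l n) (M.time n) (2 ^ n * 2 ^ (M.time n + 1)) + ε) := by
    have := bd0_nonneg k n (l n) (M.time n) (I := 2 ^ n * 2 ^ (M.time n + 1)) (by positivity)
    positivity
  have hic : ∀ c, ic (CoBad l M B n (η + γ) (O c)) ≤ ∑ a ∈ Wb.toFinset,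
      ic ((1 / 2 + (η + γ)) * 2 ^ n < (conum l M (O c) a n : ℝ)) := by
    intro c
    by_cases hc : CoBad l M B n (η + γ) (O c)
    · obtain ⟨a, ha, hac⟩ := id hc
      rw [Pool.Agent.H79.OQ.TBI.ic_true hc]
      have e1 : ic ((1 / 2 + (η + γ)) * 2 ^ n < (conum l M (O c) a n : ℝ)) = 1 :=
        Pool.Agent.H79.OQ.TBI.ic_true hac
      refine e1.symm.le.trans ?_
      exact single_le_sum (f := fun a => ic ((1 / 2 + (η + γ)) * 2 ^ n <
        (conum l M (O c) a n : ℝ))) (fun _ _ => Pool.Agent.H79.OQ.TB1.ic_nonneg _)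
        (List.mem_toFinset.2 (hWb2 a ha))
    · have e1 : ic (CoBad l M B n (η + γ) (O c)) = 0 := by
        unfold ic
        rw [if_neg hc]
      rw [e1]
      exact sum_nonneg fun _ _ => Pool.Agent.H79.OQ.TB1.ic_nonneg _
  calc ∑ c, cw k n (l n) η c * ic (CoBad l M B n (η + γ) (O c))
      ≤ ∑ c, cw k n (l n) η c * ∑ a ∈ Wb.toFinset,
          ic ((1 / 2 + (η + γ)) * 2 ^ n < (conum l M (O c) a n : ℝ)) :=
        sum_le_sum fun c _ => mul_le_mul_of_nonneg_left (hic c)
          (cw_nonneg h5 k n (l n) η hη0.le hη c)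
    _ = ∑ a ∈ Wb.toFinset, ∑ c, cw k n (l n) η c *
          ic ((1 / 2 + (η + γ)) * 2 ^ n < (conum l M (O c) a n : ℝ)) := by
        simp_rw [mul_sum]
        rw [sum_comm]
    _ ≤ ∑ a ∈ Wb.toFinset, (2 ^ nrel key dep (M.time n) (l n) *
        (bd0 k n (l n) (M.time n) (2 ^ n * 2 ^ (M.time n + 1)) + ε)) :=
        sum_le_sum fun a _ => key1 a
    _ = Wb.toFinset.card * (2 ^ nrel key dep (M.time n) (l n) *
        (bd0 k n (l n) (M.time n) (2 ^ n * 2 ^ (M.time n + 1)) + ε)) := by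
        rw [sum_const, nsmul_eq_mul]
    _ ≤ 2 ^ (B + 1) * (2 ^ nrel key dep (M.time n) (l n) *
        (bd0 k n (l n) (M.time n) (2 ^ n * 2 ^ (M.time n + 1)) + ε)) := by
        refine mul_le_mul_of_nonneg_right ?_ hX0
        have : Wb.toFinset.card ≤ 2 ^ (B + 1) := (List.toFinset_card_le _).trans hWb1
        exact_mod_cast this
    _ = bndN k n (l n) (M.time n) (B + nrel key dep (M.time n) (l n)) η γ := by
        unfold bndN
        rw [hε]
        have e4 : B + nrel key dep (M.time n) (l n) + 1 = B + 1 + nrel key dep (M.time n) (l n) := by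
          ring
        rw [e4, pow_add 2 (B + 1)]
        ring

end Pool.Agent.H70.NE
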