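import Pool.Agent.H70.NE.Targets
import Pool.Agent.H49.NC.LOM

/-!
# COB: CoBad depends only on short strings
-/

set_option autoImplicit false

namespace Pool.Agent.H70.NE

open Finset Filter Pool.Agent.H6.NB Pool.Agent.H70.OQ Pool.Agent.H70.NC Pool.Agent.H49.NC

theorem pf_cob (h : T_LOM) : T_COB := by
  intro l k M B n γ O O' hO
  have h1 : ∀ (a : List Bool) (x : Fin n → Bool),
      (nacc M O a (List.ofFn x) ↔ nacc M O' a (List.ofFn x)) := by
    intro a x
    unfold nacc
    refine exists_congr fun u => and_congr_right fun _ => ?_
    refine h k M O O' _ _ ?_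
    intro w hw
    rw [List.length_ofFn] at hw
    exact hO w (by omega)
  have h2 : ∀ x : Fin n → Bool, (List.ofFn x ∈ hard l k O ↔ List.ofFn x ∈ hard l k O') := by
    intro x
    simp only [hard, Set.mem_ofPred_eq, List.length_ofFn]
    refine nd_congr _ _ _ _ _ ?_
    intro u hu
    rw [List.length_ofFn] at hu
    unfold part
    refine hO _ ?_
    simp only [List.length_cons, List.length_append, List.length_replicate]
    have h3 : (2 ^ (k + 1) - 1) * l n ≤ 2 ^ (k + 1) * l n := Nat.mul_le_mul_right _ (Nat.sub_le _ _)
    omega
  have h3 : ∀ a : List Bool, conum l M O a n = conum l M O' a n := by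
    intro a
    unfold conum
    refine congrArg Finset.card ?_
    ext x
    simp only [mem_filter, mem_univ, true_and]
    rw [h1 a x, h2 x]
  unfold CoBad
  refine exists_congr fun a => and_congr_right fun _ => ?_
  rw [h3 a]

end Pool.Agent.H70.NE
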