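import Pool.Agent.H70.NE.Targets
import Pool.Agent.H34.NC.FIN

/-!
# FIG: the theorem
-/

set_option autoImplicit false

namespace Pool.Agent.H70.NE

open Finset Filter Pool.Agent.H6.NB Pool.Agent.H70.OQ Pool.Agent.H70.NC

theorem conum_le (l : ℕ → ℕ) {k : ℕ} (M : Mach k) (O : List Bool → Bool) (a : List Bool) (n : ℕ) :
    (conum l M O a n : ℝ) ≤ 2 ^ n := by
  classical
  have h : conum l M O a n ≤ 2 ^ n := by
    unfold conum
    refine (Finset.card_le_univ _).trans (le_of_eq ?_)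
    simp
  exact_mod_cast h

theorem pf_fig (h1 : T_FEG) (h2 : T_CPT) (h3 : T_NUD) (h4 : T_NUN) (h5 : T_LOB) (h6 : T_COB)
    (h7 : T_BDD) (h8 : T_BDN) (h9 : T_SUM) : T_FIG := by
  intro l key dep F η hl hkey hk hdep hF hη k M A δ k' N B γ
  have hLoc : LocF key F := fun i O O' h => hF i O O' fun w hw => h w (lt_of_le_of_lt hw (hdep i))
  obtain ⟨Q, hQ⟩ : ∃ Q : ℕ × ℕ → Prop, Q = fun e => e.1 + 3 ≤ e.2 ∧ 8 * e.2 ≤ l e.2 ∧
      (M e.1).time e.2 ≤ pw (l e.2) ∧ 0 ≤ δ e.1 e.2 ∧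
      bndD (k e.1) e.2 (l e.2) ((M e.1).time e.2)
        (A e.1 e.2 + nrel key dep ((M e.1).time e.2) (l e.2)) (δ e.1 e.2) ≤ 1 / 2 ^ e.2 :=
    ⟨_, rfl⟩
  obtain ⟨Q', hQ'⟩ : ∃ Q' : ℕ × ℕ → Prop, Q' = fun e => e.1 + 3 ≤ e.2 ∧ 8 * e.2 ≤ l e.2 ∧
      (N e.1).time e.2 ≤ pw (l e.2) ∧ 0 < η e.2 ∧ 0 < γ e.1 e.2 ∧ γ e.1 e.2 ≤ 1 ∧
      bndN (k' e.1) e.2 (l e.2) ((N e.1).time e.2)
        (B e.1 e.2 + nrel key dep ((N e.1).time e.2) (l e.2)) (η e.2) (γ e.1 e.2) ≤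
        8 / (100 * ((e.2 : ℝ) + 1) ^ 3) := ⟨_, rfl⟩
  have hQ1 : ∀ e, Q e → e.1 + 3 ≤ e.2 ∧ 8 * e.2 ≤ l e.2 ∧
      (M e.1).time e.2 ≤ pw (l e.2) ∧ 0 ≤ δ e.1 e.2 ∧
      bndD (k e.1) e.2 (l e.2) ((M e.1).time e.2)
        (A e.1 e.2 + nrel key dep ((M e.1).time e.2) (l e.2)) (δ e.1 e.2) ≤ 1 / 2 ^ e.2 := by
    intro e he
    rw [hQ] at he
    exact he
  have hQ1' : ∀ e, Q' e → e.1 + 3 ≤ e.2 ∧ 8 * e.2 ≤ l e.2 ∧
      (N e.1).time e.2 ≤ pw (l e.2) ∧ 0 < η e.2 ∧ 0 < γ e.1 e.2 ∧ γ e.1 e.2 ≤ 1 ∧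
      bndN (k' e.1) e.2 (l e.2) ((N e.1).time e.2)
        (B e.1 e.2 + nrel key dep ((N e.1).time e.2) (l e.2)) (η e.2) (γ e.1 e.2) ≤
        8 / (100 * ((e.2 : ℝ) + 1) ^ 3) := by
    intro e he
    rw [hQ'] at he
    exact he
  obtain ⟨bad, hbad⟩ : ∃ bad : {e : ℕ × ℕ // Q e} ⊕ {e : ℕ × ℕ // Q' e} → (List Bool → Bool) → Prop,
      bad = Sum.elim
        (fun e O => Bad l (M e.1.1) (A e.1.1 e.1.2) e.1.2 (η e.1.2 + δ e.1.1 e.1.2) O)
        (fun e O => CoBad l (N e.1.1) (B e.1.1 e.1.2) e.1.2 (η e.1.2 + γ e.1.1 e.1.2) O) := ⟨_, rfl⟩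
  obtain ⟨O, hO1, hO2⟩ := h2 key F hLoc ({e : ℕ × ℕ // Q e} ⊕ {e : ℕ × ℕ // Q' e})
    (fun c O => ¬ bad c O)
    (by
      rintro (c | c)
      · rw [hbad]
        exact ⟨_, fun O O' hOO => not_congr
          (h5 l (k c.1.1) (M c.1.1) (A c.1.1 c.1.2) c.1.2 (η c.1.2 + δ c.1.1 c.1.2) O O' hOO)⟩
      · rw [hbad]
        exact ⟨_, fun O O' hOO => not_congr
          (h6 l (k' c.1.1) (N c.1.1) (B c.1.1 c.1.2) c.1.2 (η c.1.2 + γ c.1.1 c.1.2) O O' hOO)⟩)
    (by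
      classical
      intro J
      refine h1 l key F η hkey hLoc hη ({e : ℕ × ℕ // Q e} ⊕ {e : ℕ × ℕ // Q' e}) J
        (Sum.elim (fun e => (k e.1.1, e.1.2)) fun e => (k' e.1.1, e.1.2)) bad
        (Sum.elim (fun e => 1 / 2 ^ e.1.2) fun e => 8 / (100 * ((e.1.2 : ℝ) + 1) ^ 3)) ?_ ?_
      · rintro (c | c) _ E h P O' hO'
        · obtain ⟨c1, c2, c3, c4, c5⟩ := hQ1 c.1 c.2
          rw [hbad]
          exact (h7 l key dep F hl hkey hk hdep hF (k c.1.1) c.1.2 (A c.1.1 c.1.2) (M c.1.1)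
            (η c.1.2) (δ c.1.1 c.1.2) E h P O' (hη _).1 (hη _).2 c4 hO' (by omega) (by omega)
            c3).trans c5
        · obtain ⟨c1, c2, c3, c4, c5, c6, c7⟩ := hQ1' c.1 c.2
          rw [hbad]
          exact (h8 l key dep F hl hkey hk hdep hF (k' c.1.1) c.1.2 (B c.1.1 c.1.2) (N c.1.1)
            (η c.1.2) (γ c.1.1 c.1.2) E h P O' c4 (hη _).2 c5 c6 hO' (by omega) c3).trans c7
      · rw [← toLeft_disjSum_toRight (u := J), sum_disjSum]
        simp only [Sum.elim_inl, Sum.elim_inr]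
        have s1 := (h9 (J.toLeft.map ⟨Subtype.val, Subtype.val_injective⟩) (by
          intro e he
          rw [Finset.mem_map] at he
          obtain ⟨c, _, rfl⟩ := he
          exact (hQ1 c.1 c.2).1)).1
        have s2 := (h9 (J.toRight.map ⟨Subtype.val, Subtype.val_injective⟩) (by
          intro e he
          rw [Finset.mem_map] at he
          obtain ⟨c, _, rfl⟩ := he
          exact (hQ1' c.1 c.2).1)).2
        rw [sum_map] at s1 s2
        simp only [Function.Embedding.coeFn_mk] at s1 s2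
        linarith)
  refine ⟨O, hO1, ?_, ?_⟩
  · intro j
    filter_upwards [h3 (k j), eventually_ge_atTop (j + 3)] with n e2 e3
    intro e11 e12 e13 e14 a ha
    by_cases hδ : δ j n ≤ 1 / 2
    · obtain ⟨e4, e5⟩ := e2 (l n) ((M j).time n)
        (A j n + nrel key dep ((M j).time n) (l n)) (δ j n) e11 e12 e13 hδ (by
          push_cast
          linarith)
      have hq : Q (j, n) := by
        rw [hQ]
        exact ⟨e3, e11, e4, e13.le, e5⟩
      have hnb := hO2 (Sum.inl ⟨(j, n), hq⟩)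
      rw [hbad] at hnb
      by_contra hcon
      rw [not_le] at hcon
      refine hnb ⟨a, ha, ?_⟩
      rw [← add_assoc]
      exact hcon
    · rw [not_le] at hδ
      refine (Pool.Agent.H34.NC.num_le l (M j) O a n).trans ?_
      have h10 : (0 : ℝ) < 2 ^ n := by positivity
      have h11 := (hη n).1
      nlinarith
  · intro j
    filter_upwards [h4 (k' j), eventually_ge_atTop (j + 3)] with n e2 e3
    intro e11 e12 e13 e14 a ha
    have hη0 : 0 < η n := by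
      rcases (hη n).1.eq_or_lt with h | h
      · exfalso
        rw [← h, zero_mul, zero_mul] at e14
        have : (0 : ℝ) < 100 * ((n : ℝ) + 1) ^ 3 *
          2 ^ (nrel key dep ((N j).time n) (l n) + B j n) := by positivity
        linarith
      · exact h
    by_cases hγ : γ j n ≤ 1 / 2
    · obtain ⟨e4, e5⟩ := e2 (l n) ((N j).time n)
        (B j n + nrel key dep ((N j).time n) (l n)) (η n) (γ j n) e11 e12 hη0 (hη n).2 e13
        (by linarith) (by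
          rw [add_comm (B j n)]
          exact e14)
      have hq : Q' (j, n) := by
        rw [hQ']
        exact ⟨e3, e11, e4, hη0, e13, by linarith, e5⟩
      have hnb := hO2 (Sum.inr ⟨(j, n), hq⟩)
      rw [hbad] at hnb
      by_contra hcon
      rw [not_le] at hcon
      refine hnb ⟨a, ha, ?_⟩
      rw [← add_assoc]
      exact hcon
    · rw [not_le] at hγ
      refine (conum_le l (N j) O a n).trans ?_
      have h10 : (0 : ℝ) < 2 ^ n := by positivity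
      nlinarith

end Pool.Agent.H70.NE
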