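import Pool.Agent.H70.NE.Targets

/-!
# KEY: the short strings of the oracle depend only on the short strings outside the keys
-/

set_option autoImplicit false

namespace Pool.Agent.H70.NE

open Finset Filter Pool.Agent.H6.NB Pool.Agent.H70.OQ Pool.Agent.H70.NC

theorem pf_key : T_KEY := by
  intro key dep F hdep hF σ σ' O O' s hO hO' hσ
  have h1 : ∀ (N : ℕ) (w : List Bool), w.length ≤ N → w.length ≤ s → O w = O' w := by
    intro N
    induction N with
    | zero =>
      intro w hw hs
      by_cases hk : ∃ i, w = key i
      · obtain ⟨i, rfl⟩ := hk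
        have := hdep i
        omega
      · push Not at hk
        rw [hO.2 w hk, hO'.2 w hk]
        exact hσ w hs
    | succ N ih =>
      intro w hw hs
      by_cases hk : ∃ i, w = key i
      · obtain ⟨i, rfl⟩ := hk
        have h2 := hdep i
        have h3 : F i O ↔ F i O' := hF i O O' fun u hu => ih u (by omega) (by omega)
        have h4 := hO.1 i
        have h5 := hO'.1 i
        rw [Bool.eq_iff_iff, h4, h5]
        exact h3
      · push Not at hk
        rw [hO.2 w hk, hO'.2 w hk]
        exact hσ w hs
  have h2 : ∀ w : List Bool, w.length ≤ s → O w = O' w := fun w hw => h1 _ w le_rfl hw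
  exact ⟨h2, fun i hi => hF i O O' fun w hw => h2 w (hw.trans hi)⟩

end Pool.Agent.H70.NE
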