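import Pool.Agent.H70.NE.Defs

/-!
# Collapse above a time bound and nondeterministic machines below it: module targets
-/

set_option autoImplicit false

namespace Pool.Agent.H70.NE

open Finset Filter Pool.Agent.H6.NB Pool.Agent.H70.OQ Pool.Agent.H70.NC

/-! ## Part A: answers -/

/-- WAV: the weights of the answers. -/
def T_WAV : Prop := ∀ (M : Type) [Fintype M] [DecidableEq M] (η : ℝ), 0 ≤ η → η ≤ 1 / 4 →
  (∀ β : M → Bool, 0 ≤ wa η β) ∧ ∑ β : M → Bool, wa η β = 1 ∧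
  (∀ f : (M → Bool) → ℝ, ∑ β, wa η β * f β =
    ∫ u in (0 : ℝ)..1, ∑ β, lw (1 / 2 + η * (2 * u - 1)) β * f β) ∧
  ∀ (f : (M → Bool) → ℝ) (b : ℝ), (∀ p : ℝ, 1 / 2 - η ≤ p → p ≤ 1 / 2 + η →
    ∑ β, lw p β * f β ≤ b) → ∑ β, wa η β * f β ≤ b

/-- RUS: the formula of Margulis and Russo. -/
def T_RUS : Prop := ∀ (M : Type) [Fintype M] [DecidableEq M] (F : (M → Bool) → ℝ) (p : ℝ),
  HasDerivAt (fun p : ℝ => ∑ β, lw p β * F β)
    (∑ m, ∑ β, lw p β * (F (Function.update β m true) - F (Function.update β m false))) p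

/-- SMB: the second moment for fixed `p`. -/
def T_SMB : Prop := ∀ (M : Type) [Fintype M] [DecidableEq M] (p : ℝ) (g : M → (M → Bool) → Bool),
  0 ≤ p → p ≤ 1 → (∀ m β b, g m (Function.update β m b) = g m β) →
  ∑ β, lw p β * (∑ m, sb (g m β) * ((if β m = true then 1 else 0) - p)) ^ 2 ≤
    (Fintype.card M : ℝ) / 4 +
      1 / 4 * ∑ m, ∑ m', ∑ β, lw p β * (sb (g m (Function.update β m' true)) -
        sb (g m (Function.update β m' false))) +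
      ∑ m, ∑ m', ∑ β, lw p β * ic (Neg (g m) m' β)

/-- TLG: the tail bound for predictions which are almost increasing. -/
def T_TLG : Prop := ∀ (M : Type) [Fintype M] [DecidableEq M] [Nonempty M] (η γ : ℝ)
  (g : M → (M → Bool) → Bool), 0 < η → η ≤ 1 / 4 → 0 < γ →
  (∀ m β b, g m (Function.update β m b) = g m β) →
  ∑ β, wa η β * ic ((1 / 2 + η + γ / 2) * Fintype.card M < cnt fun m => g m β = !β m) ≤
    2 / (η * γ ^ 2 * Fintype.card M) + 4 / (γ ^ 2 * (Fintype.card M : ℝ) ^ 2) *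
      ∑ m, ∑ m', ∑ β, wa η β * ic (Neg (g m) m' β)

/-! ## Part B: planted rows -/

/-- UNL: the change of an answer is unlikely to be noticed. -/
def T_UNL : Prop := ∀ (M R U : Type) [Fintype M] [DecidableEq M] [Fintype R] [DecidableEq R]
  [Nonempty R] (D L : ℕ) (l : M × R → Bool) (T : U → Pool.Agent.H68.AC.DT (M × R)) (β : M → Bool)
  (m : M), 1 ≤ L → (∀ m, L ≤ (univ.filter fun r => l (m, r) = true).card) →
  (∀ u, (T u).depth ≤ D) →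
  ∑ h : M → R, uw (Lof l) h * ic ((∃ u, (T u).eval (glu h (Function.update β m false)) = true) ∧
    ¬ ∃ u, (T u).eval (glu h (Function.update β m true)) = true) ≤ D / L

/-- NTL: the tail bound for nondeterministic trees. -/
def T_NTL : Prop := ∀ (M R U : Type) [Fintype M] [DecidableEq M] [Nonempty M] [Fintype R]
  [DecidableEq R] [Nonempty R] (D L : ℕ) (η γ : ℝ) (l : M × R → Bool)
  (T : M → U → Pool.Agent.H68.AC.DT (M × R)), 0 < η → η ≤ 1 / 4 → 0 < γ → γ ≤ 1 → 1 ≤ L →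
  (∀ m, L ≤ (univ.filter fun r => l (m, r) = true).card) → (∀ m u, (T m u).depth ≤ D) →
  ∑ β, wa η β * ∑ h : M → R, uw (Lof l) h * ic ((1 / 2 + η + γ) * Fintype.card M <
      cnt fun m => (∃ u, (T m u).eval (glu h β) = true) ↔ ¬ β m = true) ≤
    2 / (η * γ ^ 2 * Fintype.card M) + 6 / γ ^ 2 * (D / L)

/-- MOB: the moment bound for the product weights. -/
def T_MOB : Prop := ∀ (M R : Type) [Fintype M] [DecidableEq M] [Fintype R] [DecidableEq R] [Nonempty R]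
  (D L L' : ℕ) (η p y : ℝ) (l : M × R → Bool) (g : (M × R → Bool) → M → Bool), 0 ≤ η → η ≤ 1 / 4 →
  1 / 2 - η ≤ p → p ≤ 1 / 2 + η → 1 ≤ y → 1 ≤ L' → 3 * L' ≤ L →
  (∀ m, L ≤ (univ.filter fun r => l (m, r) = true).card) → QC D g →
  ∑ β : M → Bool, lw p β * ∑ h : M → R, uw (Lof l) h *
      y ^ (univ.filter fun m => g (glu h β) m = β m).card ≤
    ((1 / 2 + η) * y + (1 / 2 - η)) ^ Fintype.card M * (1 + 1 / (L' : ℝ)) ^ D

/-- TLB: the tail bound for deterministic trees. -/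
def T_TLB : Prop := ∀ (M R : Type) [Fintype M] [DecidableEq M] [Fintype R] [DecidableEq R] [Nonempty R]
  (D L L' : ℕ) (η δ : ℝ) (l : M × R → Bool) (T : M → Pool.Agent.H68.AC.DT (M × R)), 0 ≤ η →
  η ≤ 1 / 4 → 0 ≤ δ → 1 ≤ L' → 3 * L' ≤ L →
  (∀ m, L ≤ (univ.filter fun r => l (m, r) = true).card) → (∀ m, (T m).depth ≤ D) →
  ∑ β, wa η β * ∑ h : M → R, uw (Lof l) h * ic ((1 / 2 + η + δ) * Fintype.card M <
      cnt fun m => (T m).eval (glu h β) = β m) ≤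
    Real.exp (Fintype.card M * (-δ ^ 2 + D / L'))

/-- BLG: the bound for one table. -/
def T_BLG : Prop := ∀ (M R I : Type) (Y : ℕ → Type) [Fintype M] [DecidableEq M] [Fintype R]
  [DecidableEq R] [Nonempty R] [Fintype I] [∀ i, Fintype (Y i)] [∀ i, DecidableEq (Y i)]
  [∀ i, Nonempty (Y i)] (k m S t T w G L G₀ : ℕ) (q ε : ℝ), 1 ≤ w → t ≤ w → 0 < q →
  64 * w * q ≤ 1 → 1 ≤ G → 0 ≤ ε → 1 ≤ L → G₀ * L ≤ Fintype.card R →
  (∀ i < k, G * Fintype.card (Node (M × R) Y i) ≤ Fintype.card (Y i)) →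
  ∀ ρ : (M → Bool) → ℝ, (∀ β, 0 ≤ ρ β) → ∑ β, ρ β = 1 →
  ∀ Bd : (I → Bool) → (M → Bool) → Prop,
  (∀ (l : M × R → Bool) (Tr : I → Pool.Agent.H68.AC.DT (M × R)),
    (∀ m, L ≤ (univ.filter fun r => l (m, r) = true).card) → (∀ i, (Tr i).depth ≤ T * w) →
    ∑ β, ρ β * ∑ h : M → R, uw (Lof l) h * ic (Bd (fun i => (Tr i).eval (glu h β)) β) ≤ ε) →
  ∀ f : I → (Node (M × R) Y k → Bool) → Bool, (∀ i, OF m S t k T (f i)) →
  ∑ H : Hid (M × R) Y k, ∑ h : M → R, ∑ β, ρ β * ic (Bd (fun i => f i (sv (glu h β) k H)) β) ≤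
    (Fintype.card I * (m * errD (M × R) Y S w G q k) + Fintype.card M * L * (1 - q) ^ G₀ + ε) *
      (Fintype.card (Hid (M × R) Y k) * Fintype.card (M → R))

/-! ## Part C: oracles -/

/-- KEY: the short strings of the oracle depend only on the short strings outside the keys. -/
def T_KEY : Prop := ∀ (key : ℕ → List Bool) (dep : ℕ → ℕ) (F : ℕ → (List Bool → Bool) → Prop),
  (∀ i, dep i < (key i).length) → DepF dep F → ∀ (σ σ' O O' : List Bool → Bool) (s : ℕ),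
  Bld key F σ O → Bld key F σ' O' → (∀ w : List Bool, w.length ≤ s → σ w = σ' w) →
  (∀ w : List Bool, w.length ≤ s → O w = O' w) ∧ ∀ i, dep i ≤ s → (F i O ↔ F i O')

/-- BDG: bad coordinates are rare. -/
def T_BDG : Prop := ∀ (l : ℕ → ℕ) (key : ℕ → List Bool) (dep : ℕ → ℕ)
  (F : ℕ → (List Bool → Bool) → Prop),
  StrictMono l → Function.Injective key → (∀ i, ∃ w, key i = true :: w) →
  (∀ i, dep i < (key i).length) → DepF dep F →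
  ∀ (k n : ℕ) (M : Mach k) (η : ℝ) (E : Finset (ℕ × ℕ)) (h : (k, n) ∈ E)
  (P : ∀ p : {a // a ∈ E}, Ct p.1.1 p.1.2 (l p.1.2)) (O : Ct k n (l n) → List Bool → Bool),
  0 ≤ η → η ≤ 1 / 4 →
  (∀ c, Bld key F (sg l E (Function.update P ⟨(k, n), h⟩ c)) (O c)) → n ≤ l n →
  M.time n ≤ pw (l n) →
  ∀ (I : Type) [Fintype I] (ad : I → List Bool) (xs : I → Fin n → Bool) (ε : ℝ)
  (Bd : (I → Bool) → ((Fin n → Bool) → Bool) → Prop), 0 ≤ ε →
  (∀ (lv : (Fin n → Bool) × (Fin (l n) → Bool) → Bool)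
    (Tr : I → Pool.Agent.H68.AC.DT ((Fin n → Bool) × (Fin (l n) → Bool))),
    (∀ m, 2 ^ (l n / 2) ≤ (univ.filter fun r => lv (m, r) = true).card) →
    (∀ i, (Tr i).depth ≤ M.time n * pw (l n)) →
    ∑ β, wa η β * ∑ h : (Fin n → Bool) → (Fin (l n) → Bool), uw (Lof lv) h *
      ic (Bd (fun i => (Tr i).eval (glu h β)) β) ≤ ε) →
  ∀ W : Ct k n (l n) → Prop,
  (∀ c (b : I → Bool), (∀ i, b i = true ↔ M.acc (O c) (ad i) (List.ofFn (xs i))) → W c → Bd b c.2.2) →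
  ∑ c, cw k n (l n) η c * ic (W c) ≤
    2 ^ nrel key dep (M.time n) (l n) * (bd0 k n (l n) (M.time n) (Fintype.card I) + ε)

/-- BDD: bad coordinates are rare, deterministic machines. -/
def T_BDD : Prop := ∀ (l : ℕ → ℕ) (key : ℕ → List Bool) (dep : ℕ → ℕ)
  (F : ℕ → (List Bool → Bool) → Prop),
  StrictMono l → Function.Injective key → (∀ i, ∃ w, key i = true :: w) →
  (∀ i, dep i < (key i).length) → DepF dep F →
  ∀ (k n A : ℕ) (M : Mach k) (η δ : ℝ) (E : Finset (ℕ × ℕ)) (h : (k, n) ∈ E)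
  (P : ∀ p : {a // a ∈ E}, Ct p.1.1 p.1.2 (l p.1.2)) (O : Ct k n (l n) → List Bool → Bool),
  0 ≤ η → η ≤ 1 / 4 → 0 ≤ δ →
  (∀ c, Bld key F (sg l E (Function.update P ⟨(k, n), h⟩ c)) (O c)) → n ≤ l n → 4 ≤ l n →
  M.time n ≤ pw (l n) →
  ∑ c, cw k n (l n) η c * ic (Bad l M A n (η + δ) (O c)) ≤
    bndD k n (l n) (M.time n) (A + nrel key dep (M.time n) (l n)) δ

/-- BDN: bad coordinates are rare, nondeterministic machines. -/
def T_BDN : Prop := ∀ (l : ℕ → ℕ) (key : ℕ → List Bool) (dep : ℕ → ℕ)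
  (F : ℕ → (List Bool → Bool) → Prop),
  StrictMono l → Function.Injective key → (∀ i, ∃ w, key i = true :: w) →
  (∀ i, dep i < (key i).length) → DepF dep F →
  ∀ (k n B : ℕ) (M : Mach k) (η γ : ℝ) (E : Finset (ℕ × ℕ)) (h : (k, n) ∈ E)
  (P : ∀ p : {a // a ∈ E}, Ct p.1.1 p.1.2 (l p.1.2)) (O : Ct k n (l n) → List Bool → Bool),
  0 < η → η ≤ 1 / 4 → 0 < γ → γ ≤ 1 →
  (∀ c, Bld key F (sg l E (Function.update P ⟨(k, n), h⟩ c)) (O c)) → n ≤ l n →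
  M.time n ≤ pw (l n) →
  ∑ c, cw k n (l n) η c * ic (CoBad l M B n (η + γ) (O c)) ≤
    bndN k n (l n) (M.time n) (B + nrel key dep (M.time n) (l n)) η γ

/-- COB: `CoBad` depends only on short strings. -/
def T_COB : Prop := ∀ (l : ℕ → ℕ) (k : ℕ) (M : Mach k) (B n : ℕ) (γ : ℝ) (O O' : List Bool → Bool),
  (∀ w : List Bool, w.length ≤ M.time n + k + 2 + n + 2 ^ (k + 1) * l n → O w = O' w) →
  (CoBad l M B n γ O ↔ CoBad l M B n γ O')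

/-- FEG: finitely many conditions. -/
def T_FEG : Prop := ∀ (l : ℕ → ℕ) (key : ℕ → List Bool) (F : ℕ → (List Bool → Bool) → Prop)
  (η : ℕ → ℝ), Function.Injective key → LocF key F → (∀ n, 0 ≤ η n ∧ η n ≤ 1 / 4) →
  ∀ (C : Type) (J : Finset C) (κ : C → ℕ × ℕ) (bad : C → (List Bool → Bool) → Prop) (ε : C → ℝ),
  (∀ c ∈ J, ∀ (E : Finset (ℕ × ℕ)) (h : κ c ∈ E) (P : ∀ p : {a // a ∈ E}, Ct p.1.1 p.1.2 (l p.1.2))
    (O : Ct (κ c).1 (κ c).2 (l (κ c).2) → List Bool → Bool),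
    (∀ c', Bld key F (sg l E (Function.update P ⟨κ c, h⟩ c')) (O c')) →
    ∑ c', cw (κ c).1 (κ c).2 (l (κ c).2) (η (κ c).2) c' * ic (bad c (O c')) ≤ ε c) →
  ∑ c ∈ J, ε c < 1 → ∃ O, Kc key F O ∧ ∀ c ∈ J, ¬ bad c O

/-! ## Part D: numbers and the theorem -/

/-- SUM: the sum of the errors. -/
def T_SUM : Prop := ∀ J : Finset (ℕ × ℕ), (∀ e ∈ J, e.1 + 3 ≤ e.2) →
  ∑ e ∈ J, (1 : ℝ) / 2 ^ e.2 ≤ 1 / 2 ∧ ∑ e ∈ J, (8 : ℝ) / (100 * ((e.2 : ℝ) + 1) ^ 3) ≤ 1 / 4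

/-- NUD: the bound for deterministic machines. -/
def T_NUD : Prop := ∀ k : ℕ, ∀ᶠ n : ℕ in atTop, ∀ (l T A : ℕ) (δ : ℝ), 8 * n ≤ l → T ^ 16 ≤ 2 ^ l →
  0 < δ → δ ≤ 1 / 2 → (A : ℝ) + n ≤ δ ^ 2 * 2 ^ n → T ≤ pw l ∧ bndD k n l T A δ ≤ 1 / 2 ^ n

/-- NUN: the bound for nondeterministic machines. -/
def T_NUN : Prop := ∀ k : ℕ, ∀ᶠ n : ℕ in atTop, ∀ (l T B : ℕ) (η γ : ℝ), 8 * n ≤ l →
  T ^ 16 ≤ 2 ^ l → 0 < η → η ≤ 1 / 4 → 0 < γ → γ ≤ 1 →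
  100 * ((n : ℝ) + 1) ^ 3 * 2 ^ B ≤ η * γ ^ 2 * 2 ^ n →
  T ≤ pw l ∧ bndN k n l T B η γ ≤ 8 / (100 * ((n : ℝ) + 1) ^ 3)

/-- FIG: the theorem. -/
def T_FIG : Prop := ∀ (l : ℕ → ℕ) (key : ℕ → List Bool) (dep : ℕ → ℕ)
  (F : ℕ → (List Bool → Bool) → Prop) (η : ℕ → ℝ),
  StrictMono l → Function.Injective key → (∀ i, ∃ w, key i = true :: w) →
  (∀ i, dep i < (key i).length) →
  (∀ i O O', (∀ w : List Bool, w.length ≤ dep i → O w = O' w) → (F i O ↔ F i O')) →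
  (∀ n, 0 ≤ η n ∧ η n ≤ 1 / 4) →
  ∀ (k : ℕ → ℕ) (M : ∀ j, Mach (k j)) (A : ℕ → ℕ → ℕ) (δ : ℕ → ℕ → ℝ)
  (k' : ℕ → ℕ) (N : ∀ j, Mach (k' j)) (B : ℕ → ℕ → ℕ) (γ : ℕ → ℕ → ℝ),
  ∃ O : List Bool → Bool, (∀ i, (O (key i) = true ↔ F i O)) ∧
    (∀ j, ∀ᶠ n : ℕ in atTop, 8 * n ≤ l n → (M j).time n ^ 16 ≤ 2 ^ l n → 0 < δ j n →
      (nrel key dep ((M j).time n) (l n) : ℝ) + A j n + n ≤ δ j n ^ 2 * 2 ^ n →
      ∀ a : List Bool, a.length ≤ A j n → (num l (M j) O a n : ℝ) ≤ (1 / 2 + η n + δ j n) * 2 ^ n) ∧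
    ∀ j, ∀ᶠ n : ℕ in atTop, 8 * n ≤ l n → (N j).time n ^ 16 ≤ 2 ^ l n → 0 < γ j n →
      100 * ((n : ℝ) + 1) ^ 3 * 2 ^ (nrel key dep ((N j).time n) (l n) + B j n) ≤
        η n * γ j n ^ 2 * 2 ^ n →
      ∀ a : List Bool, a.length ≤ B j n →
        (conum l (N j) O a n : ℝ) ≤ (1 / 2 + η n + γ j n) * 2 ^ n

end Pool.Agent.H70.NE
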