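import Pool.Agent.H70.NE.Targets
import Pool.Agent.H79.OQ.TBI

/-!
# WAV: the weights of the answers
-/

set_option autoImplicit false

namespace Pool.Agent.H70.NE

open Finset Filter Pool.Agent.H6.NB Pool.Agent.H70.OQ Pool.Agent.H70.NC

theorem lw_cont {M : Type} [Fintype M] (η : ℝ) (β : M → Bool) :
    Continuous fun u : ℝ => lw (1 / 2 + η * (2 * u - 1)) β := by
  unfold lw
  refine continuous_finset_prod _ fun m _ => ?_
  cases β m
  · simp only [Bool.false_eq_true, if_false]
    fun_prop
  · simp only [if_true]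
    fun_prop

theorem pf_wav (h1 : Pool.Agent.H70.OQ.T_LWS) : T_WAV := by
  intro M _ _ η h0 hη
  have hp : ∀ u : ℝ, u ∈ Set.Icc (0 : ℝ) 1 →
      1 / 2 - η ≤ 1 / 2 + η * (2 * u - 1) ∧ 1 / 2 + η * (2 * u - 1) ≤ 1 / 2 + η := by
    rintro u ⟨hu0, hu1⟩
    constructor <;> nlinarith
  have hint : ∀ (β : M → Bool) (c : ℝ), IntervalIntegrable
      (fun u : ℝ => lw (1 / 2 + η * (2 * u - 1)) β * c) MeasureTheory.volume 0 1 :=
    fun β c => ((lw_cont η β).mul continuous_const).intervalIntegrable _ _
  have h3 : ∀ f : (M → Bool) → ℝ, ∑ β, wa η β * f β =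
      ∫ u in (0 : ℝ)..1, ∑ β, lw (1 / 2 + η * (2 * u - 1)) β * f β := by
    intro f
    rw [intervalIntegral.integral_finsetSum fun β _ => hint β (f β)]
    refine sum_congr rfl fun β _ => ?_
    unfold wa
    rw [intervalIntegral.integral_mul_const]
  refine ⟨?_, ?_, h3, ?_⟩
  · intro β
    unfold wa
    refine intervalIntegral.integral_nonneg (by norm_num) fun u hu => ?_
    have := hp u hu
    exact Pool.Agent.H79.OQ.TB1.lw_nonneg (by linarith) (by linarith) β
  · have h4 := h3 fun _ => 1
    simp only [mul_one] at h4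
    rw [h4]
    have h5 : ∀ u : ℝ, ∑ β : M → Bool, lw (1 / 2 + η * (2 * u - 1)) β = 1 := fun u => h1 M _
    simp only [h5]
    simp
  · intro f b hb
    rw [h3 f]
    have h6 : ∫ u in (0 : ℝ)..1, ∑ β, lw (1 / 2 + η * (2 * u - 1)) β * f β ≤
        ∫ _u in (0 : ℝ)..1, b := by
      refine intervalIntegral.integral_mono_on (by norm_num) ?_ ?_ ?_
      · refine Continuous.intervalIntegrable ?_ _ _
        exact continuous_finset_sum _ fun β _ => (lw_cont η β).mul continuous_const
      · exact continuous_const.intervalIntegrable _ _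
      · intro u hu
        have := hp u hu
        exact hb _ this.1 this.2
    simpa using h6

end Pool.Agent.H70.NE
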