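import Pool.Agent.H22.NE.NTL
import Pool.Agent.H22.NE.UNL
import Pool.Agent.H35.NE.NUD
import Pool.Agent.H35.NE.NUN
import Pool.Agent.H4.NE.MOB
import Pool.Agent.H4.NE.TLB
import Pool.Agent.H48.NE.RUS
import Pool.Agent.H48.NE.TLG
import Pool.Agent.H51.NE.SMB
import Pool.Agent.H70.NC.All
import Pool.Agent.H70.NE.BDD
import Pool.Agent.H70.NE.BDG
import Pool.Agent.H70.NE.BDN
import Pool.Agent.H70.NE.COB
import Pool.Agent.H70.NE.FEG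
import Pool.Agent.H70.NE.FIG
import Pool.Agent.H70.NE.KEY
import Pool.Agent.H70.NE.Targets
import Pool.Agent.H70.NE.WAV
import Pool.Agent.H70.OQ.All
import Pool.Agent.H74.NE.BLG
import Pool.Agent.H90.NE.SUM

/-!
# Assembly of the modules
-/

set_option autoImplicit false

namespace Pool.Agent.H70.NE

theorem pf_WAV : T_WAV :=
  Pool.Agent.H70.NE.pf_wav Pool.Agent.H70.OQ.pf_LWS

theorem pf_FEG : T_FEG :=
  Pool.Agent.H70.NE.pf_feg Pool.Agent.H70.NC.pf_BLD pf_WAV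

theorem pf_NUD : T_NUD :=
  Pool.Agent.H35.NE.pf_nud Pool.Agent.H70.NC.pf_ERD

theorem pf_NUN : T_NUN :=
  Pool.Agent.H35.NE.pf_nun Pool.Agent.H70.NC.pf_ERD

theorem pf_COB : T_COB :=
  Pool.Agent.H70.NE.pf_cob Pool.Agent.H70.NC.pf_LOM

theorem pf_BLG : T_BLG :=
  Pool.Agent.H74.NE.pf_blg Pool.Agent.H70.NC.pf_OFR Pool.Agent.H70.OQ.pf_SYM Pool.Agent.H70.OQ.pf_LIV Pool.Agent.H70.OQ.pf_UWS Pool.Agent.H70.OQ.pf_LWS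

theorem pf_KEY : T_KEY :=
  Pool.Agent.H70.NE.pf_key

theorem pf_BDG : T_BDG :=
  Pool.Agent.H70.NE.pf_bdg pf_BLG Pool.Agent.H70.NC.pf_MAF Pool.Agent.H70.NC.pf_LOM Pool.Agent.H70.NC.pf_SGV Pool.Agent.H70.NC.pf_NSQ Pool.Agent.H6.NB.pf_FIS pf_KEY pf_WAV

theorem pf_MOB : T_MOB :=
  Pool.Agent.H4.NE.pf_mob

theorem pf_TLB : T_TLB :=
  Pool.Agent.H4.NE.pf_tlb pf_WAV Pool.Agent.H70.NC.pf_QCT pf_MOB

theorem pf_BDD : T_BDD :=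
  Pool.Agent.H70.NE.pf_bdd pf_BDG pf_TLB Pool.Agent.H70.NC.pf_HRD Pool.Agent.H6.NB.pf_FIS pf_WAV

theorem pf_RUS : T_RUS :=
  Pool.Agent.H48.NE.pf_rus

theorem pf_SMB : T_SMB :=
  Pool.Agent.H51.NE.SMB.pf_smb Pool.Agent.H70.OQ.pf_LWS

theorem pf_TLG : T_TLG :=
  Pool.Agent.H48.NE.TLG.pf_tlg pf_WAV pf_RUS pf_SMB

theorem pf_UNL : T_UNL :=
  Pool.Agent.H22.NE.UNL.pf_unl Pool.Agent.H70.OQ.pf_UWS

theorem pf_NTL : T_NTL :=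
  Pool.Agent.H22.NE.NTL.pf_ntl pf_WAV pf_TLG pf_UNL Pool.Agent.H70.OQ.pf_UWS

theorem pf_BDN : T_BDN :=
  Pool.Agent.H70.NE.pf_bdn pf_BDG pf_NTL Pool.Agent.H70.NC.pf_HRD Pool.Agent.H6.NB.pf_FIS pf_WAV

theorem pf_SUM : T_SUM :=
  Pool.Agent.H90.NE.pf_sum

theorem pf_FIG : T_FIG :=
  Pool.Agent.H70.NE.pf_fig pf_FEG Pool.Agent.H70.NC.pf_CPT pf_NUD pf_NUN Pool.Agent.H70.NC.pf_LOB pf_COB pf_BDD pf_BDN pf_SUM

end Pool.Agent.H70.NE
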