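import Pool.Agent.H70.NC.Stmt

/-!
# Collapse above a time bound and nondeterministic machines below it: definitions

Oracles, oracle machines `Mach` and the languages `hard` are those of `Pool.Agent.H70.NC.Stmt`.
-/

set_option autoImplicit false

namespace Pool.Agent.H70.NE

open Pool.Agent.H6.NB Pool.Agent.H70.OQ Pool.Agent.H70.NC

/-- A pair of strings as one string: the string `u` is preceded by `0` and by the bits of `a`, each of them
preceded by `1`. -/
def pair (a u : List Bool) : List Bool := a.flatMap (fun b => [true, b]) ++ false :: u

/-- The nondeterministic machine which with the advice `a` and the input `x` guesses a string `u` of length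
at most `time |x|` and then runs `M` with the pair of `a` and `u` as advice: if `M` is a deterministic
machine with a `Σ_k` oracle, then this is a `Σ_(k+1)` machine. -/
def nacc {k : ℕ} (M : Mach k) (O : List Bool → Bool) (a x : List Bool) : Prop :=
  ∃ u : List Bool, u.length ≤ M.time x.length ∧ M.acc O (pair a u) x

open Classical in
/-- The number of inputs of length `n` on which the nondeterministic machine given by `M` with the advice
`a` agrees with the COMPLEMENT of the language number `k`. -/
noncomputable def conum (l : ℕ → ℕ) {k : ℕ} (M : Mach k) (O : List Bool → Bool) (a : List Bool)
    (n : ℕ) : ℕ :=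
  (Finset.univ.filter fun x : Fin n → Bool =>
    nacc M O a (List.ofFn x) ↔ List.ofFn x ∉ hard l k O).card

/-- The number of keys of length at most `t` whose entry depends on strings of length more than `s`. -/
noncomputable def nrel (key : ℕ → List Bool) (dep : ℕ → ℕ) (t s : ℕ) : ℕ :=
  Set.ncard {i | (key i).length ≤ t ∧ s < dep i}

end Pool.Agent.H70.NE
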