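import Pool.Agent.H70.NC.Targets
import Pool.Agent.H70.NE.Stmt

/-!
# Collapse above a time bound and nondeterministic machines below it: definitions for the proof
-/

set_option autoImplicit false

namespace Pool.Agent.H70.NE

open Finset Pool.Agent.H6.NB Pool.Agent.H70.OQ Pool.Agent.H70.NC

/-! ## Part A: weights of the answers -/

/-- The number of `m` with `p m`. -/
noncomputable def cnt {M : Type} [Fintype M] (p : M → Prop) : ℕ := by
  classical exact (univ.filter p).card

/-- The weight of the answers `β`: each answer is yes with probability `p`, and `p` is uniform in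
`[1/2 - η, 1/2 + η]`. -/
noncomputable def wa {M : Type} [Fintype M] (η : ℝ) (β : M → Bool) : ℝ :=
  ∫ u in (0 : ℝ)..1, lw (1 / 2 + η * (2 * u - 1)) β

/-- The sign. -/
noncomputable def sb (b : Bool) : ℝ := if b = true then 1 else -1

/-- The change of the answer `m'` from no to yes changes `g` from yes to no. -/
def Neg {M : Type} [DecidableEq M] (g : (M → Bool) → Bool) (m' : M) (β : M → Bool) : Prop :=
  g (Function.update β m' false) = true ∧ g (Function.update β m' true) = false

/-! ## Part B: the oracle -/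

/-- `F i` depends only on strings of length at most `dep i`. -/
def DepF (dep : ℕ → ℕ) (F : ℕ → (List Bool → Bool) → Prop) : Prop :=
  ∀ i O O', (∀ w : List Bool, w.length ≤ dep i → O w = O' w) → (F i O ↔ F i O')

/-- The weight of a coordinate. -/
noncomputable def cw (k n l : ℕ) (η : ℝ) (c : Ct k n l) : ℝ :=
  wa η c.2.2 / (Fintype.card (Hid (Rw n l) (Yq l) k) * Fintype.card ((Fin n → Bool) → (Fin l → Bool)))

/-- The nondeterministic machine is right too often about the complement, for some advice of length at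
most `B`. -/
def CoBad (l : ℕ → ℕ) {k : ℕ} (M : Mach k) (B n : ℕ) (γ : ℝ) (O : List Bool → Bool) : Prop :=
  ∃ a : List Bool, a.length ≤ B ∧ (1 / 2 + γ) * 2 ^ n < conum l M O a n

/-! ## Part C: the error -/

/-- The error of the reductions: `I` is the number of computations. -/
noncomputable def bd0 (k n l T : ℕ) (I : ℝ) : ℝ :=
  I * (2 ^ (T + 1) * errD (Rw n l) (Yq l) (2 ^ (T + 1)) (pw l) (2 ^ (l - n)) (pq l) k) +
    2 ^ n * 2 ^ (l / 2) * (1 - pq l) ^ 2 ^ (l / 2)

/-- The error for a deterministic machine. -/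
noncomputable def bndD (k n l T A : ℕ) (δ : ℝ) : ℝ :=
  2 ^ (A + 1) * (bd0 k n l T (2 ^ n) + Real.exp (2 ^ n * (-δ ^ 2 + T * pw l / 2 ^ (l / 2 - 2))))

/-- The error for a nondeterministic machine. -/
noncomputable def bndN (k n l T B : ℕ) (η γ : ℝ) : ℝ :=
  2 ^ (B + 1) * (bd0 k n l T (2 ^ n * 2 ^ (T + 1)) +
    (2 / (η * γ ^ 2 * 2 ^ n) + 6 / γ ^ 2 * (T * pw l / 2 ^ (l / 2))))

end Pool.Agent.H70.NE
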