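import Pool.Agent.H70.NE.BDN
import Pool.Agent.H33.NC.FEX

/-!
# FEG: finitely many conditions
-/

set_option autoImplicit false

namespace Pool.Agent.H70.NE

open Finset Filter Pool.Agent.H6.NB Pool.Agent.H70.OQ Pool.Agent.H70.NC

/-- Resampling of one coordinate for a product weight. -/
theorem resample {I : Type} [Fintype I] [DecidableEq I] {T : I → Type} [∀ j, Fintype (T j)]
    (w : ∀ j, T j → ℝ) (j : I) (hw : ∑ c, w j c = 1) (G : (∀ j, T j) → ℝ) :
    ∑ P, (∏ i, w i (P i)) * ∑ c, w j c * G (Function.update P j c) =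
      ∑ P, (∏ i, w i (P i)) * G P := by
  have h1 : ∑ P : ∀ j, T j, (∏ i, w i (P i)) * ∑ c, w j c * G (Function.update P j c) =
      ∑ a : (∀ j, T j) × T j, (∏ i, w i (a.1 i)) * (w j a.2 * G (Function.update a.1 j a.2)) := by
    rw [Fintype.sum_prod_type]
    simp only [mul_sum]
  have h2 : ∑ a : (∀ j, T j) × T j, (∏ i, w i (a.1 i)) * (w j a.2 * G (Function.update a.1 j a.2)) =
      ∑ a : (∀ j, T j) × T j, (∏ i, w i (a.1 i)) * w j a.2 * G a.1 := by
    refine Fintype.sum_equiv ⟨fun a => (Function.update a.1 j a.2, a.1 j),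
      fun a => (Function.update a.1 j a.2, a.1 j), ?_, ?_⟩ _ _ ?_
    · intro a; ext <;> simp
    · intro a; ext <;> simp
    · intro a
      simp only [Equiv.coe_fn_mk]
      have e1 : ∏ i, w i (a.1 i) = w j (a.1 j) * ∏ i ∈ univ.erase j, w i (a.1 i) :=
        (mul_prod_erase univ _ (mem_univ j)).symm
      have e2 : ∏ i, w i (Function.update a.1 j a.2 i) =
          w j a.2 * ∏ i ∈ univ.erase j, w i (a.1 i) := by
        rw [← mul_prod_erase univ _ (mem_univ j), Function.update_self]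
        congr 1
        refine prod_congr rfl fun i hi => ?_
        rw [Function.update_of_ne (ne_of_mem_erase hi)]
      rw [e1, e2]
      ring
  rw [h1, h2, Fintype.sum_prod_type]
  refine sum_congr rfl fun P _ => ?_
  have : ∀ c, (∏ i, w i (P i)) * w j c * G P = w j c * ((∏ i, w i (P i)) * G P) := fun c => by ring
  simp only [this]
  rw [← sum_mul, hw, one_mul]

theorem cw_sum (h2 : T_WAV) (k n l : ℕ) (η : ℝ) (h0 : 0 ≤ η) (h1 : η ≤ 1 / 4) :
    ∑ c, cw k n l η c = 1 := by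
  obtain ⟨c₀⟩ := Pool.Agent.H33.NC.ct_ne k n l
  have hcH : (0 : ℝ) < Fintype.card (Hid (Rw n l) (Yq l) k) := by
    have : Nonempty (Hid (Rw n l) (Yq l) k) := ⟨c₀.1⟩
    exact_mod_cast Fintype.card_pos
  have hcR : (0 : ℝ) < Fintype.card ((Fin n → Bool) → (Fin l → Bool)) := by
    exact_mod_cast Fintype.card_pos
  have e2 : ∑ c : Ct k n l, cw k n l η c =
      ∑ c : Hid (Rw n l) (Yq l) k × ((Fin n → Bool) → (Fin l → Bool)) ×
        ((Fin n → Bool) → Bool), cw k n l η c := rfl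
  rw [e2, Fintype.sum_prod_type]
  have e3 : ∀ H : Hid (Rw n l) (Yq l) k, ∑ b : ((Fin n → Bool) → (Fin l → Bool)) ×
      ((Fin n → Bool) → Bool), cw k n l η (H, b) = 1 / Fintype.card (Hid (Rw n l) (Yq l) k) := by
    intro H
    rw [Fintype.sum_prod_type]
    have e4 : ∀ g : (Fin n → Bool) → (Fin l → Bool), ∑ β : (Fin n → Bool) → Bool,
        cw k n l η (H, g, β) = 1 / (Fintype.card (Hid (Rw n l) (Yq l) k) *
          Fintype.card ((Fin n → Bool) → (Fin l → Bool))) := by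
      intro g
      unfold cw
      simp only
      rw [← sum_div, (h2 (Fin n → Bool) η h0 h1).2.1]
    rw [sum_congr rfl fun g _ => e4 g, sum_const, nsmul_eq_mul, card_univ]
    field_simp
  rw [sum_congr rfl fun H _ => e3 H, sum_const, nsmul_eq_mul, card_univ]
  exact mul_one_div_cancel hcH.ne'

theorem pf_feg (h1 : Pool.Agent.H70.NC.T_BLD) (h2 : T_WAV) : T_FEG := by
  intro l key F η hk hF hη C J κ bad ε hbad hsum
  classical
  obtain ⟨E, hE⟩ : ∃ E : Finset (ℕ × ℕ), E = J.image κ := ⟨_, rfl⟩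
  have hmem : ∀ c ∈ J, κ c ∈ E := by
    intro c hc
    rw [hE]
    exact mem_image_of_mem _ hc
  choose Or hOr using fun P : (∀ p : {a // a ∈ E}, Ct p.1.1 p.1.2 (l p.1.2)) =>
    h1 key F hk hF (sg l E P)
  obtain ⟨w, hw⟩ : ∃ w : ∀ p : {a // a ∈ E}, Ct p.1.1 p.1.2 (l p.1.2) → ℝ,
      w = fun (p : {a // a ∈ E}) (c : Ct p.1.1 p.1.2 (l p.1.2)) =>
        cw p.1.1 p.1.2 (l p.1.2) (η p.1.2) c := ⟨_, rfl⟩
  have hw0 : ∀ p c, 0 ≤ w p c := by
    intro p c
    rw [hw]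
    exact cw_nonneg h2 _ _ _ _ (hη _).1 (hη _).2 c
  have hw1 : ∀ p, ∑ c, w p c = 1 := by
    intro p
    rw [hw]
    exact cw_sum h2 _ _ _ _ (hη _).1 (hη _).2
  have hP0 : ∀ P : (∀ p : {a // a ∈ E}, Ct p.1.1 p.1.2 (l p.1.2)), 0 ≤ ∏ p, w p (P p) :=
    fun P => prod_nonneg fun p _ => hw0 p _
  have hP1 : ∑ P : (∀ p : {a // a ∈ E}, Ct p.1.1 p.1.2 (l p.1.2)), ∏ p, w p (P p) = 1 := by
    rw [← Fintype.prod_sum (fun p c => w p c)]
    exact prod_eq_one fun p _ => hw1 p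
  have key1 : ∀ c ∈ J, ∑ P : (∀ p : {a // a ∈ E}, Ct p.1.1 p.1.2 (l p.1.2)),
      (∏ p, w p (P p)) * ic (bad c (Or P)) ≤ ε c := by
    intro c hc
    have h3 := resample w ⟨κ c, hmem c hc⟩ (hw1 _) (fun P => ic (bad c (Or P)))
    rw [← h3]
    have h4 : ∀ P : (∀ p : {a // a ∈ E}, Ct p.1.1 p.1.2 (l p.1.2)),
        ∑ c' : Ct (κ c).1 (κ c).2 (l (κ c).2), w ⟨κ c, hmem c hc⟩ c' *
          ic (bad c (Or (Function.update P ⟨κ c, hmem c hc⟩ c'))) ≤ ε c := by
      intro P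
      have h5 := hbad c hc E (hmem c hc) P
        (fun c' => Or (Function.update P ⟨κ c, hmem c hc⟩ c')) (fun c' => hOr _)
      rw [hw]
      exact h5
    calc _ ≤ ∑ P : (∀ p : {a // a ∈ E}, Ct p.1.1 p.1.2 (l p.1.2)), (∏ p, w p (P p)) * ε c :=
          sum_le_sum fun P _ => mul_le_mul_of_nonneg_left (h4 P) (hP0 P)
      _ = ε c := by rw [← sum_mul, hP1, one_mul]
  by_contra hcon
  push Not at hcon
  have h7 : ∀ P : (∀ p : {a // a ∈ E}, Ct p.1.1 p.1.2 (l p.1.2)),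
      (1 : ℝ) ≤ ∑ c ∈ J, ic (bad c (Or P)) := by
    intro P
    obtain ⟨c, hc, h8⟩ := hcon (Or P) (hOr P).1
    calc (1 : ℝ) = ic (bad c (Or P)) := (Pool.Agent.H33.NC.ic_one h8).symm
      _ ≤ _ := single_le_sum (f := fun c => ic (bad c (Or P)))
          (fun _ _ => Pool.Agent.H33.NC.ic_nn _) hc
  have h9 : (1 : ℝ) ≤ ∑ c ∈ J, ε c := by
    calc (1 : ℝ) = ∑ P : (∀ p : {a // a ∈ E}, Ct p.1.1 p.1.2 (l p.1.2)), ∏ p, w p (P p) := hP1.symm
      _ ≤ ∑ P : (∀ p : {a // a ∈ E}, Ct p.1.1 p.1.2 (l p.1.2)), (∏ p, w p (P p)) *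
          ∑ c ∈ J, ic (bad c (Or P)) :=
          sum_le_sum fun P _ => le_mul_of_one_le_right (hP0 P) (h7 P)
      _ = ∑ c ∈ J, ∑ P : (∀ p : {a // a ∈ E}, Ct p.1.1 p.1.2 (l p.1.2)),
          (∏ p, w p (P p)) * ic (bad c (Or P)) := by
          simp_rw [mul_sum]
          rw [sum_comm]
      _ ≤ _ := sum_le_sum key1
  linarith

end Pool.Agent.H70.NE
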